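import Pool.Agent.Helper24.KK.GoalsA

/-!
# Packet KK-ENC
-/

set_option autoImplicit false

namespace Pool.Agent.Helper77.KK

open Finset Pool.Agent.Helper24.KK

theorem card_mv {Φ : Type} [DecidableEq Φ] {l : ℕ} {s t : Φ} (S : Finset Φ) (hS : S.card = l)
    (hs : s ∈ S) (ht : t ∉ S) : (insert t (S.erase s)).card = l := by
  have h1 : t ∉ S.erase s := fun h => ht (mem_of_mem_erase h)
  rw [card_insert_of_notMem h1, card_erase_of_mem hs, hS]
  have h2 : 0 < S.card := card_pos.2 ⟨s, hs⟩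
  omega

open Classical in
theorem enc (h : CNE) : ENC := by
  intro Φ _ _ l s t s' t' hst hst' hl
  have h1 := h Φ l s t hst hl
  have h2 := h Φ l s' t' hst' hl
  have h3 : (univ.filter fun p : Ix Φ l × Ix Φ l =>
      Mv s t p.1.1.1 p.2.1.1 ∧ Mv s' t' p.1.2.1 p.2.2.1).card =
      ((univ.filter fun S : Sl Φ l => s ∈ S.1 ∧ t ∉ S.1) ×ˢ
        (univ.filter fun S : Sl Φ l => s' ∈ S.1 ∧ t' ∉ S.1)).card := by
    apply Finset.card_bij (fun p _ => p.1)
    · intro p hp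
      rw [mem_filter] at hp
      rw [mem_product, mem_filter, mem_filter]
      exact ⟨⟨mem_univ _, hp.2.1.1, hp.2.1.2.1⟩, ⟨mem_univ _, hp.2.2.1, hp.2.2.2.1⟩⟩
    · intro p hp p' hp' he
      rw [mem_filter] at hp hp'
      have e1 : p.2.1.1 = p'.2.1.1 := by
        rw [hp.2.1.2.2, hp'.2.1.2.2, he]
      have e2 : p.2.2.1 = p'.2.2.1 := by
        rw [hp.2.2.2.2, hp'.2.2.2.2, he]
      exact Prod.ext he (Prod.ext (Subtype.ext e1) (Subtype.ext e2))
    · intro I hI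
      rw [mem_product, mem_filter, mem_filter] at hI
      refine ⟨(I, (⟨insert t (I.1.1.erase s), card_mv I.1.1 I.1.2 hI.1.2.1 hI.1.2.2⟩,
        ⟨insert t' (I.2.1.erase s'), card_mv I.2.1 I.2.2 hI.2.2.1 hI.2.2.2⟩)), ?_, rfl⟩
      rw [mem_filter]
      exact ⟨mem_univ _, ⟨hI.1.2.1, hI.1.2.2, rfl⟩, ⟨hI.2.2.1, hI.2.2.2, rfl⟩⟩
  rw [h3, card_product, sq]
  have e3 : (univ.filter fun S : Sl Φ l => s ∈ S.1 ∧ t ∉ S.1).card =
      (Fintype.card Φ - 2).choose (l - 1) := by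
    rw [← h1]
  have e4 : (univ.filter fun S : Sl Φ l => s' ∈ S.1 ∧ t' ∉ S.1).card =
      (Fintype.card Φ - 2).choose (l - 1) := by
    rw [← h2]
  rw [e3, e4]

end Pool.Agent.Helper77.KK
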